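import Pool.Agent.Helper3.RB.Stm

/-! The bad sets of four of a blow-up. -/

set_option autoImplicit false
set_option linter.unusedVariables false
set_option maxHeartbeats 1000000
open Finset

namespace Pool.Agent.Helper66.RB

open Pool.Agent.Helper3.OP Pool.Agent.Helper3.RB

variable {V : Type} [Fintype V] [LinearOrder V]

theorem bad_strict {ok : ℕ → Bool} (o0 : ok 0 = true) (o3 : ok 3 = true) (o6 : ok 6 = true)
    (o12 : ok 12 = true) {H : Finset (Finset V)} (m : ℕ) (h3 : ∀ A ∈ H, A.card = 3)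
    (T : Finset (V ×ₗ Fin m)) (hT : T ∈ badT ok (bl H m)) :
    T.image (fun x => (ofLex x).1) ∈ badT ok H := by
  unfold badT at hT
  rw [mem_filter, mem_P] at hT
  obtain ⟨hT4, hbad⟩ := hT
  obtain ⟨κ, rfl⟩ := exists_img hT4
  rw [C4_img] at hbad
  unfold cod4 at hbad
  simp only [e_bl h3] at hbad
  have l1 := lex_le (κ.lt_iff_lt.2 (show (0 : Fin 4) < 1 by decide))
  have l2 := lex_le (κ.lt_iff_lt.2 (show (1 : Fin 4) < 2 by decide))
  have l3 := lex_le (κ.lt_iff_lt.2 (show (2 : Fin 4) < 3 by decide))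
  have e0 : (img κ).image (fun x => (ofLex x).1) =
      {(ofLex (κ 0)).1, (ofLex (κ 1)).1, (ofLex (κ 2)).1, (ofLex (κ 3)).1} := by
    ext v
    simp only [img, mem_image, mem_map, mem_univ, true_and, mem_insert, mem_singleton]
    constructor
    · rintro ⟨x, ⟨i, rfl⟩, rfl⟩
      fin_cases i
      · exact Or.inl rfl
      · exact Or.inr (Or.inl rfl)
      · exact Or.inr (Or.inr (Or.inl rfl))
      · exact Or.inr (Or.inr (Or.inr rfl))
    · rintro (rfl | rfl | rfl | rfl)
      · exact ⟨_, ⟨0, rfl⟩, rfl⟩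
      · exact ⟨_, ⟨1, rfl⟩, rfl⟩
      · exact ⟨_, ⟨2, rfl⟩, rfl⟩
      · exact ⟨_, ⟨3, rfl⟩, rfl⟩
  rw [e0]
  generalize (ofLex (κ 0)).1 = a at *
  generalize (ofLex (κ 1)).1 = b at *
  generalize (ofLex (κ 2)).1 = c at *
  generalize (ofLex (κ 3)).1 = d at *
  have key : ∀ x : ℕ, x ≤ 1 → x = 0 ∨ x = 1 := by intro x; omega
  rcases l1.eq_or_lt with rfl | l1
  · exfalso
    rw [e_eq_zero h3 (Or.inl rfl), e_eq_zero h3 (Or.inl rfl)] at hbad
    rcases key _ (e_le H a c d) with h | h <;> rw [h] at hbad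
    · exact absurd (o0.symm.trans hbad) (by decide)
    · exact absurd (o12.symm.trans hbad) (by decide)
  rcases l2.eq_or_lt with rfl | l2
  · exfalso
    rw [e_eq_zero h3 (Or.inr (Or.inl rfl)), e_eq_zero (a := b) h3 (Or.inl rfl)] at hbad
    rcases key _ (e_le H a b d) with h | h <;> rw [h] at hbad
    · exact absurd (o0.symm.trans hbad) (by decide)
    · exact absurd (o6.symm.trans hbad) (by decide)
  rcases l3.eq_or_lt with rfl | l3
  · exfalso
    rw [e_eq_zero (a := a) h3 (Or.inr (Or.inl rfl)), e_eq_zero (a := b) h3 (Or.inr (Or.inl rfl))]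
      at hbad
    rcases key _ (e_le H a b c) with h | h <;> rw [h] at hbad
    · exact absurd (o0.symm.trans hbad) (by decide)
    · exact absurd (o3.symm.trans hbad) (by decide)
  have e1 : ({a, b, c, d} : Finset V) = img (emb4 a b c d l1 l2 l3) := by
    ext v
    simp only [img, mem_map, mem_univ, true_and, mem_insert, mem_singleton]
    constructor
    · rintro (rfl | rfl | rfl | rfl)
      · exact ⟨0, rfl⟩
      · exact ⟨1, rfl⟩
      · exact ⟨2, rfl⟩
      · exact ⟨3, rfl⟩
    · rintro ⟨i, rfl⟩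
      fin_cases i
      · exact Or.inl rfl
      · exact Or.inr (Or.inl rfl)
      · exact Or.inr (Or.inr (Or.inl rfl))
      · exact Or.inr (Or.inr (Or.inr rfl))
  rw [e1]
  unfold badT
  rw [mem_filter, mem_P]
  refine ⟨card_img _, ?_⟩
  rw [C4_img, cod4_emb4]
  exact hbad

/-- a set of four with a given image of four elements -/
theorem fibre_le (m : ℕ) (F : Finset (Finset (V ×ₗ Fin m))) (A : Finset V) (hA : A.card = 4)
    (hF : ∀ T ∈ F, T.card = 4) :
    (F.filter fun T => T.image (fun x => (ofLex x).1) = A).card ≤ m ^ 4 := by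
  obtain ⟨κ, rfl⟩ := exists_img hA
  have h2 : (univ : Finset (Fin 4 → Fin m)).card = m ^ 4 := by
    rw [card_univ]
    simp
  rw [← h2]
  refine le_trans (card_le_card ?_) (card_image_le (s := (univ : Finset (Fin 4 → Fin m)))
    (f := fun p => univ.image (fun i : Fin 4 => (toLex (κ i, p i) : V ×ₗ Fin m))))
  intro T hT
  rw [mem_filter] at hT
  obtain ⟨hT, hTi⟩ := hT
  have h4 := hF T hT
  rw [mem_image]
  have h5 : ∀ i : Fin 4, ∃ j : Fin m, (toLex (κ i, j) : V ×ₗ Fin m) ∈ T := by
    intro i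
    have h6 : κ i ∈ T.image (fun x => (ofLex x).1) := by
      rw [hTi]
      exact mem_img κ i
    obtain ⟨x, hx, hx2⟩ := mem_image.1 h6
    refine ⟨(ofLex x).2, ?_⟩
    rw [← hx2]
    exact hx
  choose p hp using h5
  refine ⟨p, mem_univ _, ?_⟩
  refine eq_of_subset_of_card_le ?_ ?_
  · intro x hx
    obtain ⟨i, _, rfl⟩ := mem_image.1 hx
    exact hp i
  · rw [h4, card_image_of_injective]
    · simp
    · intro i j hij
      have h7 : (κ i, p i) = (κ j, p j) := toLex.injective hij
      exact κ.injective (Prod.ext_iff.1 h7).1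

theorem s_bl : S_BL := by
  intro ok o0 o3 o6 o12 V _ _ H h3 m
  refine card_le_mul_card_image_of_maps_to (f := fun T => T.image (fun x => (ofLex x).1))
    (fun T hT => bad_strict o0 o3 o6 o12 m h3 T hT) (m ^ 4) ?_
  intro A hA
  refine fibre_le m _ A ?_ ?_
  · unfold badT at hA
    exact mem_P.1 (mem_filter.1 hA).1
  · intro T hT
    unfold badT at hT
    exact mem_P.1 (mem_filter.1 hT).1

end Pool.Agent.Helper66.RB

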